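import Pool.Agent.U307.NIL.Stm

set_option autoImplicit false

/-! Project NIL, package CPT (helper338). -/

open scoped InnerProductSpace

namespace Pool.Agent.U338.NIL

open Pool.Agent.U307.NIL

section

variable {M : Type} [Group M] {K : Type} [NormedAddCommGroup K] [InnerProductSpace ℂ K]
  (ρ : M →* (K ≃ₗᵢ[ℂ] K))

lemma cpt_mul (x y : M) (h : K) : ρ (x * y) h = ρ x (ρ y h) := by
  rw [map_mul]; rfl

lemma cpt_inv (x : M) (h : K) : ρ x (ρ x⁻¹ h) = h := by
  rw [← cpt_mul, mul_inv_cancel, map_one]; rfl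

lemma cpt_inv' (x : M) (h : K) : ρ x⁻¹ (ρ x h) = h := by
  rw [← cpt_mul, inv_mul_cancel, map_one]; rfl

lemma cpt_inner (x : M) (h k : K) : ⟪ρ x h, k⟫_ℂ = ⟪h, ρ x⁻¹ k⟫_ℂ := by
  have h1 := (ρ x).inner_map_map h (ρ x⁻¹ k)
  rw [cpt_inv] at h1
  exact h1

end

theorem t_CPT : S_CPT := by
  intro M _ S _ hfi K _ _ _ ρ hirr hinf X hX hcomm
  by_contra hX0
  obtain ⟨B, hB⟩ : ∃ B : K →L[ℂ] K, B = (ContinuousLinearMap.adjoint X).comp X := ⟨_, rfl⟩
  have hBX : ∀ h, B h = ContinuousLinearMap.adjoint X (X h) := fun h => by rw [hB]; rfl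
  have hBc : IsCompactOperator B := by
    rw [hB]
    exact hX.clm_comp (ContinuousLinearMap.adjoint X)
  have hadj : ∀ x ∈ S, ∀ h, ContinuousLinearMap.adjoint X (ρ x h) =
      ρ x (ContinuousLinearMap.adjoint X h) := by
    intro x hx h
    apply ext_inner_right ℂ
    intro k
    rw [ContinuousLinearMap.adjoint_inner_left, cpt_inner, cpt_inner,
      ContinuousLinearMap.adjoint_inner_left, hcomm _ (S.inv_mem hx)]
  have hBρ : ∀ x ∈ S, ∀ h, B (ρ x h) = ρ x (B h) := by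
    intro x hx h
    rw [hBX, hBX, hcomm x hx, hadj x hx]
  have hBs : B.IsSymmetric := by
    intro h k
    show ⟪B h, k⟫_ℂ = ⟪h, B k⟫_ℂ
    rw [hBX, hBX, ContinuousLinearMap.adjoint_inner_left, ContinuousLinearMap.adjoint_inner_right]
  have hB0 : B ≠ 0 := by
    intro h0
    apply hX0
    ext h
    have h1 : ⟪X h, X h⟫_ℂ = 0 := by
      rw [← ContinuousLinearMap.adjoint_inner_left, ← hBX, h0]
      simp
    simpa using inner_self_eq_zero.1 h1
  have hev := (ContinuousLinearMap.eq_zero_of_forall_hasEigenvalue_eq_zero hBc hBs).not.2 hB0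
  push Not at hev
  obtain ⟨μ, hμ, hμ0⟩ := hev
  obtain ⟨V, hV⟩ : ∃ V : Submodule ℂ K, V = Module.End.eigenspace (B : K →ₗ[ℂ] K) μ := ⟨_, rfl⟩
  have hVm : ∀ v, v ∈ V ↔ B v = μ • v := by
    intro v
    rw [hV, Module.End.mem_eigenspace_iff]
    rfl
  have hVf : FiniteDimensional ℂ V := by
    rw [hV]
    exact ContinuousLinearMap.finite_dimensional_eigenspace hBc μ hμ0
  have hVS : ∀ x ∈ S, ∀ v ∈ V, ρ x v ∈ V := by
    intro x hx v hv
    rw [hVm] at hv ⊢
    rw [hBρ x hx, hv, map_smul]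
  obtain ⟨v₀, hv₀, hv₀0⟩ : ∃ v ∈ V, v ≠ 0 := by
    obtain ⟨v, hv⟩ := hμ.exists_hasEigenvector
    refine ⟨v, ?_, hv.2⟩
    rw [hV]
    exact hv.1
  obtain ⟨U, hU⟩ : ∃ U : M ⧸ S → Submodule ℂ K,
      U = fun q => V.map ((ρ q.out).toLinearEquiv : K →ₗ[ℂ] K) := ⟨_, rfl⟩
  have hUm : ∀ q u, u ∈ U q ↔ ∃ v ∈ V, ρ q.out v = u := by
    intro q u
    rw [hU]
    exact Submodule.mem_map
  have hfin : Finite (M ⧸ S) := inferInstance
  have hUf : ∀ q, Module.Finite ℂ (U q) := by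
    intro q
    rw [hU]
    dsimp only
    infer_instance
  obtain ⟨W, hW⟩ : ∃ W : Submodule ℂ K, W = ⨆ q, U q := ⟨_, rfl⟩
  have hWf : FiniteDimensional ℂ W := by
    rw [hW]
    exact Submodule.finite_iSup U
  have hUx : ∀ (x : M) (q : M ⧸ S), ∀ u ∈ U q, ρ x u ∈ W := by
    intro x q u hu
    obtain ⟨v, hv, rfl⟩ := (hUm q u).1 hu
    obtain ⟨s, hs⟩ := QuotientGroup.mk_out_eq_mul S (x * q.out)
    have h1 : ρ x (ρ q.out v) = ρ (Quotient.out (QuotientGroup.mk (s := S) (x * q.out)))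
        (ρ (s : M)⁻¹ v) := by
      have e : x * q.out = Quotient.out (QuotientGroup.mk (s := S) (x * q.out)) * (s : M)⁻¹ := by
        rw [hs]; group
      rw [← cpt_mul, ← cpt_mul, ← e]
    rw [h1, hW]
    refine Submodule.mem_iSup_of_mem (QuotientGroup.mk (s := S) (x * q.out)) ?_
    exact (hUm _ _).2 ⟨_, hVS _ (S.inv_mem s.2) v hv, rfl⟩
  have hWx : ∀ (x : M), ∀ w ∈ W, ρ x w ∈ W := by
    intro x w hw
    have h1 : W ≤ W.comap ((ρ x).toLinearEquiv : K →ₗ[ℂ] K) := by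
      conv_lhs => rw [hW]
      refine iSup_le fun q u hu => ?_
      exact hUx x q u hu
    exact h1 hw
  have : FiniteDimensional ℂ W := hWf
  have hP : ∀ x h, W.starProjection (ρ x h) = ρ x (W.starProjection h) := by
    intro x h
    apply Submodule.eq_starProjection_of_mem_of_inner_eq_zero
    · exact hWx x _ (Submodule.starProjection_apply_mem W h)
    · intro w hw
      rw [← map_sub, cpt_inner]
      exact Submodule.starProjection_inner_eq_zero h _ (hWx _ _ hw)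
  obtain ⟨c, hc⟩ := hirr W.starProjection hP
  have hw₀ : ρ (1 : M) v₀ ∈ W := by
    have h1 := hUx ((Quotient.out (QuotientGroup.mk (s := S) (1 : M)))⁻¹)
      (QuotientGroup.mk (s := S) (1 : M)) (ρ (Quotient.out (QuotientGroup.mk (s := S) (1 : M))) v₀)
      ((hUm _ _).2 ⟨v₀, hv₀, rfl⟩)
    rw [← cpt_mul, inv_mul_cancel] at h1
    exact h1
  have hv₀W : v₀ ∈ W := by
    rw [map_one] at hw₀
    exact hw₀
  have hc1 : c = 1 := by
    have h1 := hc v₀
    rw [Submodule.starProjection_eq_self_iff.2 hv₀W] at h1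
    have h2 : (c - 1) • v₀ = 0 := by
      rw [sub_smul, one_smul, ← h1, sub_self]
    rcases smul_eq_zero.1 h2 with h3 | h3
    · exact sub_eq_zero.1 h3
    · exact absurd h3 hv₀0
  have htop : W = ⊤ := by
    rw [eq_top_iff]
    intro h _
    rw [← Submodule.starProjection_eq_self_iff, hc h, hc1, one_smul]
  apply hinf
  have h1 : FiniteDimensional ℂ (⊤ : Submodule ℂ K) := by
    rw [← htop]; exact hWf
  exact Module.Finite.equiv (Submodule.topEquiv (R := ℂ) (M := K))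

end Pool.Agent.U338.NIL
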